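import Mathlib
import Pool.Agent.Helper6.NX.GoalsB

set_option autoImplicit false

namespace Pool.Agent.Helper93.NX

open Equiv Pool.Agent.Helper6.NX

variable {n : ℕ}

lemma im_mul (a b : Perm (Fin n)) (D : Finset (Fin n)) : im (a * b) D = im a (im b D) := by
  unfold im
  rw [Finset.image_image]
  rfl

lemma isLaw_conv {ν : Perm (Fin n) → ℝ} (h : IsLaw ν) : IsLaw (conv ν ν) := by
  classical
  refine ⟨fun g => ?_, ?_⟩
  · unfold conv law
    refine Finset.sum_nonneg fun z _ => ?_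
    split_ifs
    · exact mul_nonneg (h.1 _) (h.1 _)
    · exact le_rfl
  · unfold conv law
    rw [Finset.sum_comm]
    have h1 : ∀ z : Perm (Fin n) × Perm (Fin n),
        ∑ a : Perm (Fin n), (if z.1 * z.2 = a then prd ν ν z else 0) = ν z.1 * ν z.2 := by
      intro z
      rw [Finset.sum_eq_single (z.1 * z.2)]
      · simp [prd]
      · intro b _ hb
        rw [if_neg (fun h => hb h.symm)]
      · intro hb
        exact absurd (Finset.mem_univ _) hb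
    calc _ = ∑ z : Perm (Fin n) × Perm (Fin n), ν z.1 * ν z.2 := by
          refine Finset.sum_congr rfl fun z _ => ?_
          rw [← h1 z]
          refine Finset.sum_congr rfl fun a _ => ?_
          by_cases hz : z.1 * z.2 = a
          · rw [if_pos hz, if_pos hz]
          · rw [if_neg hz, if_neg hz]
      _ = 1 := by
          rw [Fintype.sum_prod_type]
          simp only
          simp_rw [← Finset.mul_sum]
          rw [h.2]
          simp [h.2]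

lemma swap4 {α β γ δ : Type} [Fintype α] [Fintype β] [Fintype γ] [Fintype δ]
    (F : α → β → γ → δ → ℝ) :
    ∑ a, ∑ b, ∑ c, ∑ d, F a b c d = ∑ c, ∑ d, ∑ a, ∑ b, F a b c d := by
  calc ∑ a, ∑ b, ∑ c, ∑ d, F a b c d = ∑ a, ∑ c, ∑ b, ∑ d, F a b c d :=
        Finset.sum_congr rfl fun a _ => Finset.sum_comm
    _ = ∑ c, ∑ a, ∑ b, ∑ d, F a b c d := Finset.sum_comm
    _ = ∑ c, ∑ a, ∑ d, ∑ b, F a b c d :=
        Finset.sum_congr rfl fun c _ => Finset.sum_congr rfl fun a _ => Finset.sum_comm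
    _ = ∑ c, ∑ d, ∑ a, ∑ b, F a b c d := Finset.sum_congr rfl fun c _ => Finset.sum_comm

lemma kern_nonneg {ν : Perm (Fin n) → ℝ} (h : IsLaw ν) (D : Finset (Fin n)) (f : Perm (Fin n))
    (b u : Fin n) : 0 ≤ kern ν D f b u := by
  unfold kern
  apply div_nonneg
  · refine Finset.sum_nonneg fun g _ => ?_
    split_ifs
    · exact h.1 g
    · exact le_rfl
  · refine Finset.sum_nonneg fun g _ => ?_
    split_ifs
    · exact h.1 g
    · exact le_rfl

lemma kern_sum {ν : Perm (Fin n) → ℝ} (h : IsLaw ν) (D : Finset (Fin n)) (f : Perm (Fin n))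
    (b : Fin n) : ∑ u, kern ν D f b u ≤ 1 := by
  classical
  unfold kern
  rw [← Finset.sum_div]
  have h1 : ∑ u : Fin n, ∑ g : Perm (Fin n), (if (∀ x ∈ D, g x = f x) ∧ g u = b then ν g else 0) =
      ∑ g : Perm (Fin n), (if (∀ x ∈ D, g x = f x) then ν g else 0) := by
    rw [Finset.sum_comm]
    refine Finset.sum_congr rfl fun g _ => ?_
    rw [Finset.sum_eq_single (g⁻¹ b)]
    · simp
    · intro u _ hu
      rw [if_neg]
      rintro ⟨-, h2⟩
      apply hu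
      rw [← h2]
      simp
    · intro hb
      exact absurd (Finset.mem_univ _) hb
  have h2 : (∑ u : Fin n, ∑ g : Perm (Fin n),
      (if (∀ x ∈ D, g x = f x) ∧ g u = b then ν g else 0)) /
      (∑ g : Perm (Fin n), (if (∀ x ∈ D, g x = f x) then ν g else 0)) ≤ 1 := by
    rw [h1]
    exact div_self_le_one _
  convert h2 using 1

lemma kern_pos {ν : Perm (Fin n) → ℝ} (h : IsLaw ν) (D : Finset (Fin n)) (f : Perm (Fin n))
    (hf : 0 < ν f) (p : Fin n) : 0 < kern ν D f (f p) p := by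
  classical
  unfold kern
  apply div_pos
  · refine lt_of_lt_of_le hf ?_
    refine le_trans (le_of_eq ?_) (Finset.single_le_sum (f := fun g : Perm (Fin n) =>
      (if (∀ x ∈ D, g x = f x) ∧ g p = f p then ν g else 0)) ?_ (Finset.mem_univ f))
    · simp
    · intro g _
      split_ifs
      · exact h.1 g
      · exact le_rfl
  · refine lt_of_lt_of_le hf ?_
    refine le_trans (le_of_eq ?_) (Finset.single_le_sum (f := fun g : Perm (Fin n) =>
      (if (∀ x ∈ D, g x = f x) then ν g else 0)) ?_ (Finset.mem_univ f))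
    · simp
    · intro g _
      split_ifs
      · exact h.1 g
      · exact le_rfl

/-- the number of permutations moving `K` to `p`. -/
lemma stab (K p : Fin n) :
    ∑ π : Perm (Fin n), (if π K = p then (1 : ℝ) else 0) = (n.factorial : ℝ) / n := by
  classical
  have hn : (0 : ℝ) < n := by
    have : 0 < n := Fin.pos K
    exact_mod_cast this
  have h1 : ∀ q : Fin n, ∑ π : Perm (Fin n), (if π K = q then (1 : ℝ) else 0) =
      ∑ π : Perm (Fin n), (if π K = p then (1 : ℝ) else 0) := by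
    intro q
    rw [← Equiv.sum_comp (Equiv.mulLeft (Equiv.swap p q))]
    refine Finset.sum_congr rfl fun π _ => ?_
    have : ((Equiv.mulLeft (Equiv.swap p q)) π) K = q ↔ π K = p := by
      simp only [Equiv.coe_mulLeft, Equiv.Perm.mul_apply]
      constructor
      · intro h
        have := congrArg (Equiv.swap p q) h
        simpa using this
      · intro h
        rw [h]
        simp
    simp only [this]
  have h2 : ∑ q : Fin n, ∑ π : Perm (Fin n), (if π K = q then (1 : ℝ) else 0) =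
      (n.factorial : ℝ) := by
    rw [Finset.sum_comm]
    simp [Fintype.card_perm]
  rw [Finset.sum_congr rfl fun q _ => h1 q] at h2
  rw [Finset.sum_const, Finset.card_univ, Fintype.card_fin, nsmul_eq_mul] at h2
  rw [eq_div_iff hn.ne']
  linarith

lemma pair1 (K : Fin n) (g : Perm (Fin n) → ℝ) :
    ∑ π₁ : Perm (Fin n), ∑ π₂ : Perm (Fin n), (if π₁ K = π₂ K then g π₁ else 0) =
      (n.factorial : ℝ) / n * ∑ π, g π := by
  rw [Finset.mul_sum]
  refine Finset.sum_congr rfl fun π₁ _ => ?_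
  rw [← stab K (π₁ K), Finset.sum_mul]
  refine Finset.sum_congr rfl fun π₂ _ => ?_
  by_cases h : π₁ K = π₂ K
  · rw [if_pos h, if_pos h.symm, one_mul]
  · rw [if_neg h, if_neg (fun h' => h h'.symm), zero_mul]

lemma pair2 (K : Fin n) (g : Perm (Fin n) → ℝ) :
    ∑ π₁ : Perm (Fin n), ∑ π₂ : Perm (Fin n), (if π₁ K = π₂ K then g π₂ else 0) =
      (n.factorial : ℝ) / n * ∑ π, g π := by
  rw [Finset.sum_comm, ← pair1 K g]
  refine Finset.sum_congr rfl fun π₁ _ => Finset.sum_congr rfl fun π₂ _ => ?_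
  by_cases h : π₁ K = π₂ K
  · rw [if_pos h, if_pos h.symm]
  · rw [if_neg h, if_neg (fun h' => h h'.symm)]

/-- the logarithmic term. -/
noncomputable def QQ (ν : Perm (Fin n) → ℝ) (k : ℕ) (hk : k < n) (τ₁ τ₂ w₁ w₂ : Perm (Fin n)) :
    ℝ := ∑ f₁ : Perm (Fin n), ∑ f₂ : Perm (Fin n), ν f₁ * ν f₂ *
      Real.log ((∑ v, kern ν (im τ₁ (ini n k)) f₁ (f₁ (τ₁ ⟨k, hk⟩)) (w₁ v) *
          kern ν (im τ₂ (ini n k)) f₂ (f₂ (τ₂ ⟨k, hk⟩)) (w₂ v)) /
        (kern ν (im τ₁ (ini n k)) f₁ (f₁ (τ₁ ⟨k, hk⟩)) (τ₁ ⟨k, hk⟩) *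
          kern ν (im τ₂ (ini n k)) f₂ (f₂ (τ₂ ⟨k, hk⟩)) (τ₂ ⟨k, hk⟩)))

/-- a bracket. -/
noncomputable def AA' (ν : Perm (Fin n) → ℝ) (k : ℕ) (hk : k < n) (w π : Perm (Fin n)) : ℝ :=
  cent (prd ν ν) (fun z => z.1 (w (z.2 (π ⟨k, hk⟩))))
    (fun z => res (im π (ini n k)) (z.1 * w * z.2)) -
      ∑ h, ν h * cent ν (fun f => f (w (h (π ⟨k, hk⟩)))) (res (im (w * h) (im π (ini n k))))

lemma s1f_apply (hs1f : S_S1F) (ν : Perm (Fin n) → ℝ) (hν : IsLaw ν) (k : ℕ) (hk : k < n)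
    (w₁ w₂ π₁ π₂ : Perm (Fin n)) (hp : π₁ ⟨k, hk⟩ = π₂ ⟨k, hk⟩) :
    cent ν (fun h => h (π₁ ⟨k, hk⟩)) (res (im π₁ (ini n k) ∪ im π₂ (ini n k))) ≤
      AA' ν k hk w₁ π₁ + AA' ν k hk w₂ π₂ +
        ∑ h, ν h * QQ ν k hk (w₁ * h * π₁) (w₂ * h * π₂) w₁ w₂ := by
  refine le_trans (hs1f n ν (π₁ ⟨k, hk⟩) (im π₁ (ini n k)) (im π₂ (ini n k)) w₁ w₂ hν)
    (le_of_eq ?_)
  unfold AA' QQ
  rw [← hp]
  congr 1
  refine Finset.sum_congr rfl fun h _ => ?_
  rw [Finset.mul_sum]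
  refine Finset.sum_congr rfl fun f₁ _ => ?_
  rw [Finset.mul_sum]
  refine Finset.sum_congr rfl fun f₂ _ => ?_
  simp only [← im_mul]
  rw [mul_assoc (ν h), mul_assoc (ν h)]
  simp only [Equiv.Perm.mul_apply, ← hp]

lemma jen_sum (hjen : S_JEN) (ν ω : Perm (Fin n) → ℝ) (hν : IsLaw ν) (hω : IsLaw ω)
    (hm : Mix2 ω) (k : ℕ) (hk : k < n) (hn : 2 ≤ n) (τ₁ τ₂ : Perm (Fin n)) :
    ∑ w₁, ∑ w₂, (if w₁⁻¹ (τ₁ ⟨k, hk⟩) = w₂⁻¹ (τ₂ ⟨k, hk⟩) then
        ω w₁ * ω w₂ * QQ ν k hk τ₁ τ₂ w₁ w₂ else 0) ≤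
      ∑ f₁, ∑ f₂, ν f₁ * ν f₂ * (2 / n *
        Real.log (1 + 32 / (n * (kap ν k hk τ₁ f₁ * kap ν k hk τ₂ f₂)))) := by
  set LG : Perm (Fin n) → Perm (Fin n) → Perm (Fin n) → Perm (Fin n) → ℝ := fun f₁ f₂ w₁ w₂ =>
    Real.log ((∑ v, kern ν (im τ₁ (ini n k)) f₁ (f₁ (τ₁ ⟨k, hk⟩)) (w₁ v) *
          kern ν (im τ₂ (ini n k)) f₂ (f₂ (τ₂ ⟨k, hk⟩)) (w₂ v)) /
        (kern ν (im τ₁ (ini n k)) f₁ (f₁ (τ₁ ⟨k, hk⟩)) (τ₁ ⟨k, hk⟩) *
          kern ν (im τ₂ (ini n k)) f₂ (f₂ (τ₂ ⟨k, hk⟩)) (τ₂ ⟨k, hk⟩))) with hLG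
  have h1 : ∑ w₁, ∑ w₂, (if w₁⁻¹ (τ₁ ⟨k, hk⟩) = w₂⁻¹ (τ₂ ⟨k, hk⟩) then
        ω w₁ * ω w₂ * QQ ν k hk τ₁ τ₂ w₁ w₂ else 0) =
      ∑ w₁, ∑ w₂, ∑ f₁, ∑ f₂, ν f₁ * ν f₂ *
        ((if w₁⁻¹ (τ₁ ⟨k, hk⟩) = w₂⁻¹ (τ₂ ⟨k, hk⟩) then ω w₁ * ω w₂ else 0) *
          LG f₁ f₂ w₁ w₂) := by
    refine Finset.sum_congr rfl fun w₁ _ => Finset.sum_congr rfl fun w₂ _ => ?_
    split_ifs
    · unfold QQ
      rw [Finset.mul_sum]
      refine Finset.sum_congr rfl fun f₁ _ => ?_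
      rw [Finset.mul_sum]
      refine Finset.sum_congr rfl fun f₂ _ => ?_
      simp only [hLG]
      ring
    · simp
  rw [h1, swap4]
  refine Finset.sum_le_sum fun f₁ _ => Finset.sum_le_sum fun f₂ _ => ?_
  have h2 : ∑ w₁, ∑ w₂, ν f₁ * ν f₂ *
        ((if w₁⁻¹ (τ₁ ⟨k, hk⟩) = w₂⁻¹ (τ₂ ⟨k, hk⟩) then ω w₁ * ω w₂ else 0) *
          LG f₁ f₂ w₁ w₂) = ν f₁ * ν f₂ * ∑ w₁, ∑ w₂,
        (if w₁⁻¹ (τ₁ ⟨k, hk⟩) = w₂⁻¹ (τ₂ ⟨k, hk⟩) then ω w₁ * ω w₂ else 0) *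
          LG f₁ f₂ w₁ w₂ := by
    rw [Finset.mul_sum]
    refine Finset.sum_congr rfl fun w₁ _ => ?_
    rw [Finset.mul_sum]
  rw [h2]
  rcases (hν.1 f₁).eq_or_lt with hf₁ | hf₁
  · rw [← hf₁]
    simp
  rcases (hν.1 f₂).eq_or_lt with hf₂ | hf₂
  · rw [← hf₂]
    simp
  refine mul_le_mul_of_nonneg_left ?_ (mul_nonneg hf₁.le hf₂.le)
  exact hjen n ω (kern ν (im τ₁ (ini n k)) f₁ (f₁ (τ₁ ⟨k, hk⟩)))
    (kern ν (im τ₂ (ini n k)) f₂ (f₂ (τ₂ ⟨k, hk⟩))) (τ₁ ⟨k, hk⟩) (τ₂ ⟨k, hk⟩) hn hω hm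
    (fun u => kern_nonneg hν _ _ _ _) (fun u => kern_nonneg hν _ _ _ _)
    (kern_sum hν _ _ _) (kern_sum hν _ _ _) (kern_pos hν _ _ hf₁ _) (kern_pos hν _ _ hf₂ _)

/-- the first bracket after summation. -/
lemma bracket (havg : S_AVG) (hvp : S_VP) (hfw : S_FW) (ν ω : Perm (Fin n) → ℝ)
    (hν : IsLaw ν) (hω : IsLaw ω) (θ : ℝ) (k : ℕ) (hk : k < n) (hn : 3 ≤ n)
    (hθ : ∀ w, 0 < ω w → ∑ g, |ν (g * w⁻¹) - ν g| ≤ θ) :
    ∑ w, ω w * ∑ π : Perm (Fin n), AA' ν k hk w π ≤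
      (n.factorial : ℝ) * (Real.log n * (VV (conv ν ν) k - VV ν k + (θ + 2 * √θ))) := by
  have hlog : 0 < Real.log n := by
    apply Real.log_pos
    have : (3 : ℝ) ≤ n := by exact_mod_cast hn
    linarith
  have hfac : (0 : ℝ) < (n.factorial : ℝ) := by
    exact_mod_cast Nat.factorial_pos n
  have hc := isLaw_conv hν
  obtain ⟨v1, -, -, v4, -, -, -⟩ := hvp n ν (by omega) hν
  obtain ⟨-, -, -, c4, -, -, -⟩ := hvp n (conv ν ν) (by omega) hc
  have e1 : ∑ π : Perm (Fin n), FF ν (π ⟨k, hk⟩) (im π (ini n k)) =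
      (n.factorial : ℝ) * VV ν k := by
    rw [v4 k]
    unfold avF
    rw [dif_pos hk, ← mul_assoc, mul_inv_cancel₀ hfac.ne', one_mul]
  have e2 : ∑ π : Perm (Fin n), FF (conv ν ν) (π ⟨k, hk⟩) (im π (ini n k)) =
      (n.factorial : ℝ) * VV (conv ν ν) k := by
    rw [c4 k]
    unfold avF
    rw [dif_pos hk, ← mul_assoc, mul_inv_cancel₀ hfac.ne', one_mul]
  have key : ∀ w, 0 < ω w → ∑ π : Perm (Fin n), AA' ν k hk w π ≤
      (n.factorial : ℝ) * (Real.log n * (VV (conv ν ν) k - VV ν k + (θ + 2 * √θ))) := by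
    intro w hw
    unfold AA'
    rw [Finset.sum_sub_distrib]
    have a1 : ∑ π : Perm (Fin n), cent (prd ν ν) (fun z => z.1 (w (z.2 (π ⟨k, hk⟩))))
        (fun z => res (im π (ini n k)) (z.1 * w * z.2)) ≤
        (n.factorial : ℝ) * (Real.log n * (VV (conv ν ν) k + (θ + 2 * √θ))) := by
      calc _ ≤ ∑ π : Perm (Fin n), Real.log n *
            (FF (conv ν ν) (π ⟨k, hk⟩) (im π (ini n k)) + (θ + 2 * √θ)) :=
            Finset.sum_le_sum fun π _ => (hfw n ν w θ hn hν (hθ w hw) _ _).2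
        _ = _ := by
            rw [← Finset.mul_sum, Finset.sum_add_distrib, e2, Finset.sum_const,
              Finset.card_univ, Fintype.card_perm, Fintype.card_fin, nsmul_eq_mul]
            ring
    have a2 : ∑ π : Perm (Fin n), ∑ h, ν h * cent ν (fun f => f (w (h (π ⟨k, hk⟩))))
        (res (im (w * h) (im π (ini n k)))) =
        (n.factorial : ℝ) * (Real.log n * VV ν k) := by
      rw [Finset.sum_comm]
      have : ∀ h : Perm (Fin n), ∑ π : Perm (Fin n), ν h * cent ν (fun f => f (w (h (π ⟨k, hk⟩))))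
        (res (im (w * h) (im π (ini n k)))) =
          ν h * ((n.factorial : ℝ) * (Real.log n * VV ν k)) := by
        intro h
        rw [← Finset.mul_sum]
        congr 1
        calc _ = ∑ π : Perm (Fin n), (fun σ : Perm (Fin n) =>
              Real.log n * FF ν (σ ⟨k, hk⟩) (im σ (ini n k))) ((Equiv.mulLeft (w * h)) π) := by
              refine Finset.sum_congr rfl fun π _ => ?_
              simp only [Equiv.coe_mulLeft, im_mul, Equiv.Perm.mul_apply]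
              rw [v1]
              field_simp
          _ = ∑ σ : Perm (Fin n), Real.log n * FF ν (σ ⟨k, hk⟩) (im σ (ini n k)) :=
              Equiv.sum_comp (Equiv.mulLeft (w * h)) (fun σ : Perm (Fin n) =>
                Real.log n * FF ν (σ ⟨k, hk⟩) (im σ (ini n k)))
          _ = _ := by
              rw [← Finset.mul_sum, e1]
              ring
      rw [Finset.sum_congr rfl fun h _ => this h, ← Finset.sum_mul, hν.2, one_mul]
    rw [a2]
    calc _ ≤ (n.factorial : ℝ) * (Real.log n * (VV (conv ν ν) k + (θ + 2 * √θ))) -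
          (n.factorial : ℝ) * (Real.log n * VV ν k) := by linarith
      _ = _ := by ring
  calc ∑ w, ω w * ∑ π : Perm (Fin n), AA' ν k hk w π
      ≤ ∑ w, ω w * ((n.factorial : ℝ) *
        (Real.log n * (VV (conv ν ν) k - VV ν k + (θ + 2 * √θ)))) := by
        refine Finset.sum_le_sum fun w _ => ?_
        rcases (hω.1 w).eq_or_lt with h | h
        · rw [← h]
          simp
        · exact mul_le_mul_of_nonneg_left (key w h) h.le
    _ = _ := by rw [← Finset.sum_mul, hω.2, one_mul]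

/-- the left side after summation. -/
lemma left (havg : S_AVG) (hvp : S_VP) (ν : Perm (Fin n) → ℝ) (hν : IsLaw ν) (k : ℕ)
    (hk : k < n) (hn : 3 ≤ n) :
    (n.factorial : ℝ) / n * ((n.factorial : ℝ) * (Real.log n * VV ν (2 * k))) ≤
    ∑ π₁ : Perm (Fin n), ∑ π₂ : Perm (Fin n), (if π₁ ⟨k, hk⟩ = π₂ ⟨k, hk⟩ then
      cent ν (fun h => h (π₁ ⟨k, hk⟩)) (res (im π₁ (ini n k) ∪ im π₂ (ini n k))) else 0) := by
  classical
  have hlog : 0 < Real.log n := by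
    apply Real.log_pos
    have : (3 : ℝ) ≤ n := by exact_mod_cast hn
    linarith
  have hfac : (0 : ℝ) < (n.factorial : ℝ) := by
    exact_mod_cast Nat.factorial_pos n
  obtain ⟨v1, -, -, v4, v5, -, -⟩ := hvp n ν (by omega) hν
  have hanti : ∀ i j, i ≤ j → VV ν j ≤ VV ν i := by
    intro i j hij
    induction j, hij using Nat.le_induction with
    | base => exact le_rfl
    | succ j _ ih => exact le_trans (v5 j).2.2 ih
  set K : Fin n := ⟨k, hk⟩ with hK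
  have h1 : ∑ π₁ : Perm (Fin n), ∑ π₂ : Perm (Fin n), (if π₁ K = π₂ K then
      cent ν (fun h => h (π₁ K)) (res (im π₁ (ini n k) ∪ im π₂ (ini n k))) else 0) =
      ∑ θ : Perm (Fin n), ∑ π₁ : Perm (Fin n), (if θ K = K then
      cent ν (fun h => h (π₁ K)) (res (im π₁ (ini n k ∪ im θ (ini n k)))) else 0) := by
    rw [Finset.sum_comm' (s := Finset.univ) (t := fun _ => Finset.univ) (t' := Finset.univ)
      (s' := fun _ => Finset.univ) (by simp)]
    rw [Finset.sum_comm]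
    conv_rhs => rw [Finset.sum_comm]
    refine Finset.sum_congr rfl fun π₁ _ => ?_
    rw [← Equiv.sum_comp (Equiv.mulLeft π₁)]
    refine Finset.sum_congr rfl fun θ _ => ?_
    simp only [Equiv.coe_mulLeft, Equiv.Perm.mul_apply, im_mul]
    have e1 : (π₁ K = π₁ (θ K)) ↔ θ K = K := by
      rw [π₁.injective.eq_iff]
      exact eq_comm
    have e2 : im π₁ (ini n k ∪ im θ (ini n k)) =
        im π₁ (ini n k) ∪ im π₁ (im θ (ini n k)) := by
      unfold im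
      rw [Finset.image_union]
    rw [e2]
    simp only [e1]
  rw [h1, ← stab K K, Finset.sum_mul]
  refine Finset.sum_le_sum fun θ _ => ?_
  by_cases hθ : θ K = K
  · simp only [if_pos hθ, one_mul]
    set D := ini n k ∪ im θ (ini n k) with hD
    have hKI : K ∉ ini n k := by
      unfold ini
      simp [hK]
    have hKD : K ∉ D := by
      rw [hD, Finset.mem_union, not_or]
      refine ⟨hKI, ?_⟩
      unfold im
      rw [Finset.mem_image]
      rintro ⟨i, hi, hi2⟩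
      have : i = K := θ.injective (by rw [hi2, hθ])
      exact hKI (this ▸ hi)
    have hcI : (ini n k).card = k := (havg n k).2.2 hk.le
    have hcD : D.card ≤ 2 * k := by
      calc D.card ≤ (ini n k).card + (im θ (ini n k)).card := Finset.card_union_le _ _
        _ ≤ (ini n k).card + (ini n k).card := by
            unfold im
            exact Nat.add_le_add_left Finset.card_image_le _
        _ = 2 * k := by rw [hcI]; ring
    have hcn : D.card < n := by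
      have : D.card < (Finset.univ : Finset (Fin n)).card :=
        Finset.card_lt_card (Finset.ssubset_univ_iff.2 (fun h => hKD (h ▸ Finset.mem_univ _)))
      simpa using this
    have e1 := (havg n D.card).1 hcn (FF ν) K D hKD rfl
    have e2 : ∑ π : Perm (Fin n), cent ν (fun h => h (π K)) (res (im π D)) =
        Real.log n * ∑ π : Perm (Fin n), FF ν (π K) (im π D) := by
      rw [Finset.mul_sum]
      refine Finset.sum_congr rfl fun π _ => ?_
      rw [v1]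
      field_simp
    have e3 : ∑ π : Perm (Fin n), FF ν (π ⟨D.card, hcn⟩) (im π (ini n D.card)) =
        (n.factorial : ℝ) * VV ν D.card := by
      rw [v4 D.card]
      unfold avF
      rw [dif_pos hcn, ← mul_assoc, mul_inv_cancel₀ hfac.ne', one_mul]
    rw [e2, e1, e3]
    have := hanti D.card (2 * k) hcD
    calc (n.factorial : ℝ) * (Real.log n * VV ν (2 * k))
        = Real.log n * ((n.factorial : ℝ) * VV ν (2 * k)) := by ring
      _ ≤ Real.log n * ((n.factorial : ℝ) * VV ν D.card) :=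
          mul_le_mul_of_nonneg_left (mul_le_mul_of_nonneg_left this hfac.le) hlog.le
  · simp [if_neg hθ]

/-- the logarithmic term after summation. -/
lemma logterm (hjen : S_JEN) (ν ω : Perm (Fin n) → ℝ) (hν : IsLaw ν) (hω : IsLaw ω)
    (hm : Mix2 ω) (k : ℕ) (hk : k < n) (hn : 2 ≤ n) :
    ∑ w₁ : Perm (Fin n), ∑ w₂ : Perm (Fin n), ω w₁ * ω w₂ *
      ∑ π₁ : Perm (Fin n), ∑ π₂ : Perm (Fin n), (if π₁ ⟨k, hk⟩ = π₂ ⟨k, hk⟩ then
        ∑ h, ν h * QQ ν k hk (w₁ * h * π₁) (w₂ * h * π₂) w₁ w₂ else 0) ≤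
      ∑ τ₁ : Perm (Fin n), ∑ τ₂ : Perm (Fin n), ∑ f₁, ∑ f₂, ν f₁ * ν f₂ * (2 / n *
        Real.log (1 + 32 / (n * (kap ν k hk τ₁ f₁ * kap ν k hk τ₂ f₂)))) := by
  classical
  set K : Fin n := ⟨k, hk⟩ with hK
  have h1 : ∀ w₁ w₂ h : Perm (Fin n), ∑ π₁ : Perm (Fin n), ∑ π₂ : Perm (Fin n),
      (if π₁ K = π₂ K then QQ ν k hk (w₁ * h * π₁) (w₂ * h * π₂) w₁ w₂ else 0) =
      ∑ τ₁ : Perm (Fin n), ∑ τ₂ : Perm (Fin n),
        (if w₁⁻¹ (τ₁ K) = w₂⁻¹ (τ₂ K) then QQ ν k hk τ₁ τ₂ w₁ w₂ else 0) := by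
    intro w₁ w₂ h
    symm
    rw [← Equiv.sum_comp (Equiv.mulLeft (w₁ * h))]
    refine Finset.sum_congr rfl fun π₁ _ => ?_
    rw [← Equiv.sum_comp (Equiv.mulLeft (w₂ * h))]
    refine Finset.sum_congr rfl fun π₂ _ => ?_
    have hinv : ∀ (w : Perm (Fin n)) (x : Fin n), w⁻¹ (w x) = x := fun w x => by simp
    have : (π₁ K = π₂ K) ↔ (w₁⁻¹ (((Equiv.mulLeft (w₁ * h)) π₁) K) =
        w₂⁻¹ (((Equiv.mulLeft (w₂ * h)) π₂) K)) := by
      simp only [Equiv.coe_mulLeft, Equiv.Perm.mul_apply, hinv]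
      exact (h.injective.eq_iff).symm
    by_cases hc : π₁ K = π₂ K
    · rw [if_pos (this.1 hc), if_pos hc]
      rfl
    · rw [if_neg (fun h' => hc (this.2 h')), if_neg hc]
  have h2 : ∀ w₁ w₂ : Perm (Fin n), ∑ π₁ : Perm (Fin n), ∑ π₂ : Perm (Fin n),
      (if π₁ K = π₂ K then ∑ h, ν h * QQ ν k hk (w₁ * h * π₁) (w₂ * h * π₂) w₁ w₂ else 0) =
      ∑ τ₁ : Perm (Fin n), ∑ τ₂ : Perm (Fin n),
        (if w₁⁻¹ (τ₁ K) = w₂⁻¹ (τ₂ K) then QQ ν k hk τ₁ τ₂ w₁ w₂ else 0) := by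
    intro w₁ w₂
    calc _ = ∑ π₁ : Perm (Fin n), ∑ π₂ : Perm (Fin n), ∑ h, ν h *
          (if π₁ K = π₂ K then QQ ν k hk (w₁ * h * π₁) (w₂ * h * π₂) w₁ w₂ else 0) := by
          refine Finset.sum_congr rfl fun π₁ _ => Finset.sum_congr rfl fun π₂ _ => ?_
          split_ifs
          · rfl
          · simp
      _ = ∑ π₁ : Perm (Fin n), ∑ h, ∑ π₂ : Perm (Fin n), ν h *
          (if π₁ K = π₂ K then QQ ν k hk (w₁ * h * π₁) (w₂ * h * π₂) w₁ w₂ else 0) :=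
          Finset.sum_congr rfl fun π₁ _ => Finset.sum_comm
      _ = ∑ h, ∑ π₁ : Perm (Fin n), ∑ π₂ : Perm (Fin n), ν h *
          (if π₁ K = π₂ K then QQ ν k hk (w₁ * h * π₁) (w₂ * h * π₂) w₁ w₂ else 0) :=
          Finset.sum_comm
      _ = ∑ h, ν h * ∑ τ₁ : Perm (Fin n), ∑ τ₂ : Perm (Fin n),
        (if w₁⁻¹ (τ₁ K) = w₂⁻¹ (τ₂ K) then QQ ν k hk τ₁ τ₂ w₁ w₂ else 0) := by
          refine Finset.sum_congr rfl fun h _ => ?_
          rw [← h1 w₁ w₂ h, Finset.mul_sum]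
          refine Finset.sum_congr rfl fun π₁ _ => ?_
          rw [Finset.mul_sum]
      _ = _ := by rw [← Finset.sum_mul, hν.2, one_mul]
  calc _ = ∑ w₁ : Perm (Fin n), ∑ w₂ : Perm (Fin n), ∑ τ₁ : Perm (Fin n), ∑ τ₂ : Perm (Fin n),
        (if w₁⁻¹ (τ₁ K) = w₂⁻¹ (τ₂ K) then ω w₁ * ω w₂ * QQ ν k hk τ₁ τ₂ w₁ w₂ else 0) := by
        refine Finset.sum_congr rfl fun w₁ _ => Finset.sum_congr rfl fun w₂ _ => ?_
        rw [h2, Finset.mul_sum]
        refine Finset.sum_congr rfl fun τ₁ _ => ?_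
        rw [Finset.mul_sum]
        refine Finset.sum_congr rfl fun τ₂ _ => ?_
        split_ifs
        · rfl
        · simp
    _ = ∑ τ₁ : Perm (Fin n), ∑ τ₂ : Perm (Fin n), ∑ w₁ : Perm (Fin n), ∑ w₂ : Perm (Fin n),
        (if w₁⁻¹ (τ₁ K) = w₂⁻¹ (τ₂ K) then ω w₁ * ω w₂ * QQ ν k hk τ₁ τ₂ w₁ w₂ else 0) :=
        swap4 _
    _ ≤ _ := Finset.sum_le_sum fun τ₁ _ => Finset.sum_le_sum fun τ₂ _ =>
        jen_sum hjen ν ω hν hω hm k hk hn τ₁ τ₂

theorem thmS1 (havg : S_AVG) (hvp : S_VP) (hvc : S_VC) (hfw : S_FW) (hs1f : S_S1F)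
    (hjen : S_JEN) : S_S1 := by
  intro n k hk ν ω θ hn hν hω hθ hm
  classical
  have hlog : 0 < Real.log n := by
    apply Real.log_pos
    have : (3 : ℝ) ≤ n := by exact_mod_cast hn
    linarith
  have hfac : (0 : ℝ) < (n.factorial : ℝ) := by
    exact_mod_cast Nat.factorial_pos n
  have hnR : (0 : ℝ) < n := by
    have : 0 < n := by omega
    exact_mod_cast this
  set K : Fin n := ⟨k, hk⟩ with hK
  set T := ∑ σ₁ : Perm (Fin n), ∑ σ₂ : Perm (Fin n),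
      ∑ f₁, ∑ f₂, ν f₁ * ν f₂ *
        Real.log (1 + 32 / (n * (kap ν k hk σ₁ f₁ * kap ν k hk σ₂ f₂))) with hT
  set X : ℝ := ∑ π₁ : Perm (Fin n), ∑ π₂ : Perm (Fin n), (if π₁ K = π₂ K then
      cent ν (fun h => h (π₁ K)) (res (im π₁ (ini n k) ∪ im π₂ (ini n k))) else 0) with hX
  have hleft := left havg hvp ν hν k hk hn
  rw [← hK, ← hX] at hleft
  have hbr := bracket havg hvp hfw ν ω hν hω θ k hk hn hθ
  have hlg := logterm hjen ν ω hν hω hm k hk (by omega)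
  -- summation of S1F
  have hsum : X ≤ ∑ w₁ : Perm (Fin n), ∑ w₂ : Perm (Fin n), ω w₁ * ω w₂ *
      ∑ π₁ : Perm (Fin n), ∑ π₂ : Perm (Fin n), (if π₁ K = π₂ K then
        (AA' ν k hk w₁ π₁ + AA' ν k hk w₂ π₂ +
        ∑ h, ν h * QQ ν k hk (w₁ * h * π₁) (w₂ * h * π₂) w₁ w₂) else 0) := by
    have e1 : X = ∑ w₁ : Perm (Fin n), ∑ w₂ : Perm (Fin n), ω w₁ * ω w₂ * X := by
      have : ∀ w₁ : Perm (Fin n), ∑ w₂ : Perm (Fin n), ω w₁ * ω w₂ * X = ω w₁ * X := by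
        intro w₁
        rw [← Finset.sum_mul, ← Finset.mul_sum, hω.2, mul_one]
      rw [Finset.sum_congr rfl fun w₁ _ => this w₁, ← Finset.sum_mul, hω.2, one_mul]
    rw [e1]
    refine Finset.sum_le_sum fun w₁ _ => Finset.sum_le_sum fun w₂ _ => ?_
    refine mul_le_mul_of_nonneg_left ?_ (mul_nonneg (hω.1 _) (hω.1 _))
    refine Finset.sum_le_sum fun π₁ _ => Finset.sum_le_sum fun π₂ _ => ?_
    split_ifs with hc
    · exact s1f_apply hs1f ν hν k hk w₁ w₂ π₁ π₂ hc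
    · exact le_rfl
  have hsplit : ∀ w₁ w₂ : Perm (Fin n),
      ∑ π₁ : Perm (Fin n), ∑ π₂ : Perm (Fin n), (if π₁ K = π₂ K then
        (AA' ν k hk w₁ π₁ + AA' ν k hk w₂ π₂ +
        ∑ h, ν h * QQ ν k hk (w₁ * h * π₁) (w₂ * h * π₂) w₁ w₂) else 0) =
      (n.factorial : ℝ) / n * (∑ π, AA' ν k hk w₁ π) +
      (n.factorial : ℝ) / n * (∑ π, AA' ν k hk w₂ π) +
      ∑ π₁ : Perm (Fin n), ∑ π₂ : Perm (Fin n), (if π₁ K = π₂ K then
        ∑ h, ν h * QQ ν k hk (w₁ * h * π₁) (w₂ * h * π₂) w₁ w₂ else 0) := by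
    intro w₁ w₂
    rw [← pair1 K (AA' ν k hk w₁), ← pair2 K (AA' ν k hk w₂), ← Finset.sum_add_distrib,
      ← Finset.sum_add_distrib]
    refine Finset.sum_congr rfl fun π₁ _ => ?_
    rw [← Finset.sum_add_distrib, ← Finset.sum_add_distrib]
    refine Finset.sum_congr rfl fun π₂ _ => ?_
    split_ifs
    · rfl
    · simp
  set S : ℝ := ∑ w, ω w * ∑ π : Perm (Fin n), AA' ν k hk w π with hS
  set Lg : ℝ := ∑ w₁ : Perm (Fin n), ∑ w₂ : Perm (Fin n), ω w₁ * ω w₂ *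
      ∑ π₁ : Perm (Fin n), ∑ π₂ : Perm (Fin n), (if π₁ K = π₂ K then
        ∑ h, ν h * QQ ν k hk (w₁ * h * π₁) (w₂ * h * π₂) w₁ w₂ else 0) with hLg
  have htot : ∑ w₁ : Perm (Fin n), ∑ w₂ : Perm (Fin n), ω w₁ * ω w₂ *
      ∑ π₁ : Perm (Fin n), ∑ π₂ : Perm (Fin n), (if π₁ K = π₂ K then
        (AA' ν k hk w₁ π₁ + AA' ν k hk w₂ π₂ +
        ∑ h, ν h * QQ ν k hk (w₁ * h * π₁) (w₂ * h * π₂) w₁ w₂) else 0) =
      (n.factorial : ℝ) / n * S + (n.factorial : ℝ) / n * S + Lg := by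
    have b1 : ∑ w₁ : Perm (Fin n), ∑ w₂ : Perm (Fin n), ω w₁ * ω w₂ *
        ((n.factorial : ℝ) / n * (∑ π, AA' ν k hk w₁ π)) = (n.factorial : ℝ) / n * S := by
      have : ∀ w₁ : Perm (Fin n), ∑ w₂ : Perm (Fin n), ω w₁ * ω w₂ *
        ((n.factorial : ℝ) / n * (∑ π, AA' ν k hk w₁ π)) =
          (n.factorial : ℝ) / n * (ω w₁ * ∑ π, AA' ν k hk w₁ π) := by
        intro w₁
        rw [← Finset.sum_mul, ← Finset.mul_sum, hω.2]
        ring
      rw [Finset.sum_congr rfl fun w₁ _ => this w₁, ← Finset.mul_sum]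
    have b2 : ∑ w₁ : Perm (Fin n), ∑ w₂ : Perm (Fin n), ω w₁ * ω w₂ *
        ((n.factorial : ℝ) / n * (∑ π, AA' ν k hk w₂ π)) = (n.factorial : ℝ) / n * S := by
      rw [Finset.sum_comm]
      have : ∀ w₂ : Perm (Fin n), ∑ w₁ : Perm (Fin n), ω w₁ * ω w₂ *
        ((n.factorial : ℝ) / n * (∑ π, AA' ν k hk w₂ π)) =
          (n.factorial : ℝ) / n * (ω w₂ * ∑ π, AA' ν k hk w₂ π) := by
        intro w₂
        rw [← Finset.sum_mul, ← Finset.sum_mul, hω.2]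
        ring
      rw [Finset.sum_congr rfl fun w₂ _ => this w₂, ← Finset.mul_sum]
    have b3 : ∑ w₁ : Perm (Fin n), ∑ w₂ : Perm (Fin n), ω w₁ * ω w₂ *
      ∑ π₁ : Perm (Fin n), ∑ π₂ : Perm (Fin n), (if π₁ K = π₂ K then
        (AA' ν k hk w₁ π₁ + AA' ν k hk w₂ π₂ +
        ∑ h, ν h * QQ ν k hk (w₁ * h * π₁) (w₂ * h * π₂) w₁ w₂) else 0) =
      (∑ w₁ : Perm (Fin n), ∑ w₂ : Perm (Fin n), ω w₁ * ω w₂ *
        ((n.factorial : ℝ) / n * (∑ π, AA' ν k hk w₁ π))) +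
      (∑ w₁ : Perm (Fin n), ∑ w₂ : Perm (Fin n), ω w₁ * ω w₂ *
        ((n.factorial : ℝ) / n * (∑ π, AA' ν k hk w₂ π))) + Lg := by
      rw [hLg, ← Finset.sum_add_distrib, ← Finset.sum_add_distrib]
      refine Finset.sum_congr rfl fun w₁ _ => ?_
      rw [← Finset.sum_add_distrib, ← Finset.sum_add_distrib]
      refine Finset.sum_congr rfl fun w₂ _ => ?_
      rw [hsplit]
      ring
    rw [b3, b1, b2]
  have hTT : ∑ τ₁ : Perm (Fin n), ∑ τ₂ : Perm (Fin n), ∑ f₁, ∑ f₂, ν f₁ * ν f₂ * (2 / n *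
        Real.log (1 + 32 / (n * (kap ν k hk τ₁ f₁ * kap ν k hk τ₂ f₂)))) = 2 / n * T := by
    rw [hT, Finset.mul_sum]
    refine Finset.sum_congr rfl fun τ₁ _ => ?_
    rw [Finset.mul_sum]
    refine Finset.sum_congr rfl fun τ₂ _ => ?_
    rw [Finset.mul_sum]
    refine Finset.sum_congr rfl fun f₁ _ => ?_
    rw [Finset.mul_sum]
    refine Finset.sum_congr rfl fun f₂ _ => ?_
    ring
  rw [hTT] at hlg
  rw [htot] at hsum
  have hM : 0 < (n.factorial : ℝ) / n := div_pos hfac hnR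
  have hmain : (n.factorial : ℝ) / n * ((n.factorial : ℝ) * (Real.log n * VV ν (2 * k))) ≤
      2 * ((n.factorial : ℝ) / n * ((n.factorial : ℝ) *
        (Real.log n * (VV (conv ν ν) k - VV ν k + (θ + 2 * √θ))))) + 2 / n * T := by
    have := mul_le_mul_of_nonneg_left hbr hM.le
    linarith
  have hden : 0 < (n.factorial : ℝ) ^ 2 / n * Real.log n := by positivity
  have hgoal : VV ν (2 * k) * ((n.factorial : ℝ) ^ 2 / n * Real.log n) ≤
      (2 * (VV (conv ν ν) k - VV ν k) + 2 * (θ + 2 * √θ) +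
        2 * (((n.factorial : ℝ)⁻¹ ^ 2 * T) / Real.log n)) *
          ((n.factorial : ℝ) ^ 2 / n * Real.log n) := by
    have r1 : 2 * (((n.factorial : ℝ)⁻¹ ^ 2 * T) / Real.log n) *
        ((n.factorial : ℝ) ^ 2 / n * Real.log n) = 2 / n * T := by
      field_simp
    calc VV ν (2 * k) * ((n.factorial : ℝ) ^ 2 / n * Real.log n)
        = (n.factorial : ℝ) / n * ((n.factorial : ℝ) * (Real.log n * VV ν (2 * k))) := by ring
      _ ≤ _ := hmain
      _ = 2 * (VV (conv ν ν) k - VV ν k + (θ + 2 * √θ)) *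
          ((n.factorial : ℝ) ^ 2 / n * Real.log n) + 2 / n * T := by ring
      _ = 2 * (VV (conv ν ν) k - VV ν k + (θ + 2 * √θ)) *
          ((n.factorial : ℝ) ^ 2 / n * Real.log n) + 2 * (((n.factorial : ℝ)⁻¹ ^ 2 * T) /
            Real.log n) * ((n.factorial : ℝ) ^ 2 / n * Real.log n) := by rw [r1]
      _ = _ := by ring
  exact le_of_mul_le_mul_right hgoal hden

end Pool.Agent.Helper93.NX
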